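import Pool.Agent.RS.StmtsF

set_option autoImplicit false

namespace Pool.Agent.RS.H99

open MvPolynomial

/-- Stage `0` (copy of the row ST0). -/
theorem st0 (pjb : PjbStmt) : St0Stmt := by
  intro E _ ι _ _ a0 b0 Q R h hn
  have hall : ∀ f : MvPolynomial ℕ E, f ∈ Pj E (fun _ => 0) 0 := by
    intro f
    unfold Pj
    rw [(pjb E).1]
    intro i _ hi
    simp at hi
  refine ⟨⟨?_, rfl, ?_⟩, hall _, one_ne_zero, ?_, ?_, ?_, ?_, ?_, hn⟩
  · intro l hl
    omega
  · intro l hl
    omega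
  · simp
  · intro w κ _ _
    rfl
  · intro f s
    refine ⟨f, 0, hall _, ?_⟩
    simp
  · intro l hl
    omega
  · intro t
    exact ⟨rfl, hall _, hall _, (h t).1, (h t).2.1, (h t).2.2⟩

end Pool.Agent.RS.H99
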