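import Pool.Agent.Helper10_RS.NMD
import Pool.Agent.Helper13_RS.EXO
import Pool.Agent.Helper13_RS.GNO
import Pool.Agent.Helper13_RS.UFL
import Pool.Agent.Helper14_RS.EssRow
import Pool.Agent.Helper15_RS.FUN
import Pool.Agent.Helper15_RS.GES
import Pool.Agent.Helper15_RS.LDE
import Pool.Agent.Helper16_RS.GTW
import Pool.Agent.Helper16_RS.SDG
import Pool.Agent.Helper18_RS.NPW
import Pool.Agent.Helper22_RS.SYL
import Pool.Agent.Helper24_RS.GGR
import Pool.Agent.Helper24_RS.PJB
import Pool.Agent.Helper25_RS.EIV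
import Pool.Agent.Helper25_RS.FRE
import Pool.Agent.Helper25_RS.STE
import Pool.Agent.Helper27_RS.MNP
import Pool.Agent.Helper29_RS.GMM
import Pool.Agent.Helper30_RS.STO
import Pool.Agent.Helper31_RS.GCZ
import Pool.Agent.Helper31_RS.HIT
import Pool.Agent.Helper32_RS.HOM
import Pool.Agent.Helper32_RS.PFB
import Pool.Agent.Helper32_RS.PSD
import Pool.Agent.Helper37_RS.STB
import Pool.Agent.Helper37_RS.TRS
import Pool.Agent.Helper39_RS.ABS
import Pool.Agent.Helper39_RS.JAC
import Pool.Agent.Helper3_RS.BND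
import Pool.Agent.Helper41_RS.COP
import Pool.Agent.Helper41_RS.GNA
import Pool.Agent.Helper41_RS.IND
import Pool.Agent.Helper41_RS.TRA
import Pool.Agent.Helper44_RS.PRD
import Pool.Agent.Helper45_RS.LMB
import Pool.Agent.Helper46_RS.GDE
import Pool.Agent.Helper47_RS.DET
import Pool.Agent.Helper47_RS.NMT
import Pool.Agent.Helper49_RS.GCH
import Pool.Agent.Helper49_RS.JDT
import Pool.Agent.Helper49_RS.LFT
import Pool.Agent.Helper49_RS.SPE
import Pool.Agent.Helper52_RS.NTM
import Pool.Agent.Helper52_RS.NZD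
import Pool.Agent.Helper52_RS.STC
import Pool.Agent.Helper53_RS.DSM
import Pool.Agent.Helper53_RS.PFR
import Pool.Agent.Helper58_RS.EQP
import Pool.Agent.Helper62_RS.PIC
import Pool.Agent.Helper64_RS.DER
import Pool.Agent.Helper65_RS.BEZ
import Pool.Agent.Helper65_RS.LIN
import Pool.Agent.Helper65_RS.STA
import Pool.Agent.Helper65_RS.TER
import Pool.Agent.Helper67_RS.DOW
import Pool.Agent.Helper67_RS.ISO
import Pool.Agent.Helper69_RS.GDM
import Pool.Agent.Helper70_RS.RES
import Pool.Agent.Helper72_RS.NDR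
import Pool.Agent.Helper76_RS.LSB
import Pool.Agent.Helper77_RS.GNB
import Pool.Agent.Helper77_RS.GNT
import Pool.Agent.Helper77_RS.TRM
import Pool.Agent.Helper79_RS.LMK
import Pool.Agent.Helper79_RS.PFF
import Pool.Agent.Helper7_RS.LMT
import Pool.Agent.Helper80_RS.INC
import Pool.Agent.Helper81_RS.GOO
import Pool.Agent.Helper81_RS.SSB
import Pool.Agent.Helper82_RS.FAI
import Pool.Agent.Helper82_RS.PHB
import Pool.Agent.Helper83_RS.TOP
import Pool.Agent.Helper85_RS.RSS
import Pool.Agent.Helper86_RS.GIN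
import Pool.Agent.Helper86_RS.NDC
import Pool.Agent.Helper88_RS.LMC
import Pool.Agent.Helper89_RS.PRM
import Pool.Agent.Helper90_RS.GEM
import Pool.Agent.Helper90_RS.SMP
import Pool.Agent.Helper96_RS.FAC
import Pool.Agent.Helper96_RS.TXC
import Pool.Agent.Helper99_RS.ST0

set_option autoImplicit false

/-! Assembly of the rows of the squad RS (every row of the table `rs`). -/

namespace Pool.Agent.RS.H99

open Pool.Agent.RS

/-! ### Block T -/

theorem txc : TxcStmt := H96.txc
theorem pff : PffStmt := H79.pff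

theorem npw : NpwStmt := H18.npw H52.ntm H81.goo

theorem abs : AbsStmt :=
  H39.abs (H13.ext H13.exo) H89.prm H64.der H10.nmd (H72.ndr H10.nmd H52.ntm)
    H72.niv (H86.ndc (H32.pfb (H53.pfr pff)) H10.nmd H52.ntm) npw H25.eiv H58.alg H58.eqp
    H27.mnp H39.jac

theorem ter : TerStmt :=
  H65.ter (H15.ges H14.essRow H24.ggr H46.gde H31.gcz H69.gdm) H31.gcz H69.gdm
    (H16.gtw H29.gmm txc) (H49.gch H29.gmm txc) (H86.gin (H29.ggd H29.gmm) H90.gem)
    (H67.iso abs) H80.inc

/-! ### Block F -/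

theorem pjb : PjbStmt := H24.pjb txc
theorem cop : CopStmt := H41.cop txc pjb
theorem nzd : NzdStmt := H52.nzd cop H90.smp
theorem bez : BezStmt := H65.bez H22.syl H16.sdg H81.ssb nzd pjb txc
theorem funn : FunStmt := H15.funx pff
theorem res : ResStmt := H70.resRow funn
theorem trm : TrmStmt := H77.trm H22.syl
theorem tra : TraStmt := H41.tra trm H90.smp H16.sdg H81.ssb nzd pjb txc res
theorem lmk : LmkStmt := H79.lmk txc res
theorem lmb : LmbStmt := H45.lmb res txc
theorem lmc : LmcStmt := H88.lmc H32.psd res txc pjb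
theorem lmt : LmtStmt := H7.lmt tra
theorem det : DetStmt := H47.det bez H32.psd res lmk lmb txc pjb
theorem sta : StaStmt := H65.sta H13.ufl H47.nmt pjb
theorem fac : FacStmt := H96.fac pjb
theorem dsm : DsmStmt := H53.dsm fac det H47.nmt
theorem trs : TrsStmt := H37.trs H82.phb H47.nmt
theorem lsb : LsbStmt := H76.lsb lmk lmb lmc pjb
theorem stc : StcStmt := H52.stc lmk lmb lsb H81.goo pjb
theorem bnd : BndStmt := H3.bnd bez lmt
theorem ste : SteStmt := H25.ste bnd (H62.pic H47.nmt) pjb txc fac dsm trs stc H47.nmt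
theorem sto : StoStmt := H30.sto sta H37.stb H82.phb
theorem dow : DowStmt := H67.dow ste sto H82.phb
theorem rss : RssStmt := H85.rss ter dow (st0 pjb) H47.nmt

/-! ### Block G -/

theorem spe : SpeStmt :=
  H49.spe rss H82.fai (H49.jdt H15.lde) H82.phb H47.nmt

theorem hit : HitStmt :=
  H31.hit spe (H77.gnt H13.gno) H25.fre

theorem prd : PrdStmt := H44.prd hit

end Pool.Agent.RS.H99
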