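import Pool.Agent.RS.StmtsG
import Pool.Agent.Helper78_ACIT.Circuit
import Pool.Agent.Helper78_ACIT.Prime
import Pool.Agent.Helper12_CMP.Transfer

set_option autoImplicit false

/-! The test for circuits, from the hitting set. -/

namespace Pool.Agent.RS.H99

open Pool.Agent.Helper78_ACIT Pool.Agent.UO Pool.Agent.RS

/-- Sums of `k` products. -/
theorem isComp_sum {E : Type} [Field E] (k d n : ℕ) (c : Fin k → E) (N : Fin k → ℕ)
    (f : ∀ i : Fin k, Fin (N i) → MvPolynomial ℕ E)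
    (hf : ∀ i v, (f i v).totalDegree ≤ d ∧ (f i v).vars ⊆ Finset.range n) :
    IsComp E k d n (∑ i, MvPolynomial.C (c i) * ∏ v, f i v) := by
  refine ⟨k, fun i => ∏ v, f i v, ∑ i, MvPolynomial.C (c i) * MvPolynomial.X i,
    fun i => ⟨N i, f i, hf i, rfl⟩, fun s _ => ?_, ?_⟩
  · exact (Finset.card_le_univ s).trans (by simp)
  · rw [map_sum]
    refine Finset.sum_congr rfl fun i _ => ?_
    rw [map_mul, MvPolynomial.aeval_X, MvPolynomial.aeval_C]
    rfl

/-- The test for circuits of polynomial degree, for any class of polynomials hit by the generator. -/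
theorem test (E : Type) [Field E] [CharZero E] (n t : ℕ) (P : MvPolynomial ℕ E → Prop)
    (hP : ∀ S : List (MvPolynomial ℕ E), (∀ F ∈ S, P F) →
      S.prod ≠ 0 → ∃ w z : Fin t → E, MvPolynomial.eval (point n w z) S.prod ≠ 0) :
    ∀ (D b : ℕ) (G : List Gate), WellFormed G →
      (poly G = 0 ∨ ((poly G).totalDegree ≤ D ∧ length (poly G) ≤ 2 ^ b ∧
        ∃ S : List (MvPolynomial ℕ E), (∀ F ∈ S, P F) ∧ S.prod ≠ 0 ∧
          MvPolynomial.map (Int.castRingHom E) (poly G) ∣ S.prod)) →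
      (G ∈ ACIT ↔ ∀ p, p.Prime → p ≤ 64 * (b + D * (t + n * (n * (D + 1))) + 1) ^ 2 →
        ∀ w z : Fin t → Fin (n * D + 1),
          out (point n (fun j => ((w j : ℕ) : ZMod p)) (fun j => ((z j : ℕ) : ZMod p))) G = 0) := by
  intro D b G hG hpoly
  have hval : ∀ (p : ℕ) (w z : Fin t → Fin (n * D + 1)),
      out (point n (fun j => ((w j : ℕ) : ZMod p)) (fun j => ((z j : ℕ) : ZMod p))) G =
      ((MvPolynomial.eval (point n (fun j => ((w j : ℕ) : ℤ)) (fun j => ((z j : ℕ) : ℤ)))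
        (poly G) : ℤ) : ZMod p) := by
    intro p w z
    have h1 := out_map (Int.castRingHom (ZMod p))
      (point n (fun j => ((w j : ℕ) : ℤ)) (fun j => ((z j : ℕ) : ℤ))) G
    have h2 : (fun i => Int.castRingHom (ZMod p)
        (point n (fun j => ((w j : ℕ) : ℤ)) (fun j => ((z j : ℕ) : ℤ)) i)) =
        point n (fun j => ((w j : ℕ) : ZMod p)) (fun j => ((z j : ℕ) : ZMod p)) := by
      funext i
      rw [point_map]
      simp
    rw [h2] at h1
    rw [← h1, out_eq_eval]
    rfl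
  constructor
  · rintro ⟨-, h0⟩ p _ _ w z
    rw [hval, h0, map_zero, Int.cast_zero]
  · intro htest
    refine ⟨hG, ?_⟩
    rcases hpoly with h0 | ⟨hD, hb, S, hS, hS0, hdvd⟩
    · exact h0
    exfalso
    obtain ⟨w, z, hw, hz, hne⟩ := CMP.int_hit_of n D t (poly G) hD _ (hP S hS hS0) hdvd
    obtain ⟨V, hV⟩ : ∃ V, V = MvPolynomial.eval
      (point n (fun j => (w j : ℤ)) (fun j => (z j : ℤ))) (poly G) := ⟨_, rfl⟩
    rw [← hV] at hne
    have hVle : V.natAbs ≤ 2 ^ (b + D * (t + n * (n * (D + 1)))) := by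
      rw [hV]
      refine (natAbs_eval_le (poly G) _ (2 ^ (t + n * (n * (D + 1)))) D
        (Nat.one_le_pow _ _ (by norm_num)) (natAbs_point_le n D t w z hw hz) hD).trans ?_
      rw [← pow_mul, pow_add, mul_comm (t + n * (n * (D + 1))) D]
      exact Nat.mul_le_mul_right _ hb
    obtain ⟨p, hp, hple, hpnd⟩ := exists_prime_not_dvd V.natAbs _ (Int.natAbs_ne_zero.mpr hne)
      hVle
    apply hpnd
    have h1 := htest p hp hple (fun j => ⟨w j, Nat.lt_succ_of_le (hw j)⟩)
      (fun j => ⟨z j, Nat.lt_succ_of_le (hz j)⟩)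
    rw [hval] at h1
    have h2 : ((V : ℤ) : ZMod p) = 0 := by
      rw [hV]
      exact h1
    rw [ZMod.intCast_zmod_eq_zero_iff_dvd, Int.natCast_dvd] at h2
    exact h2

end Pool.Agent.RS.H99
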