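import Pool.Agent.Helper58_RS.CluDefs

set_option autoImplicit false

/-! The definitions of clusters are in `Pool.Agent.Helper58_RS.CluDefs`. -/
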