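import Pool.Agent.Helper99_RS.CluDefs

set_option autoImplicit false

/-! Examples of clusters. -/

namespace Pool.Agent.RS.H99

open MvPolynomial

theorem vars_prod_range {E I : Type} [Field E] {n : ℕ} (s : Finset I) (f : I → MvPolynomial ℕ E)
    (h : ∀ i ∈ s, (f i).vars ⊆ Finset.range n) : (∏ i ∈ s, f i).vars ⊆ Finset.range n := by
  classical
  refine (vars_prod f).trans ?_
  intro x hx
  rw [Finset.mem_biUnion] at hx
  obtain ⟨i, hi, hx⟩ := hx
  exact h i hi hx

/-- Products which differ in few factors from one product form a cluster. -/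
theorem isCluster_near {E : Type} [Field E] (d d' r n N M : ℕ) (hd : d' ≤ d) (hr : r * d' ≤ d)
    (f : Fin N → MvPolynomial ℕ E)
    (V : Fin M → Finset (Fin N)) (a : Fin M → MvPolynomial ℕ E)
    (hf : ∀ v, (f v).totalDegree ≤ d' ∧ (f v).vars ⊆ Finset.range n)
    (hV : ∀ u, (V u).card ≤ r)
    (ha : ∀ u, (a u).totalDegree ≤ d ∧ (a u).vars ⊆ Finset.range n) :
    IsCluster E d n (∑ u, a u * ∏ v ∈ (V u)ᶜ, f v) := by
  classical
  let f' : Fin N → MvPolynomial ℕ E := fun v => if f v = 0 then 1 else f v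
  let a' : Fin M → MvPolynomial ℕ E := fun u => if ∃ v ∈ (V u)ᶜ, f v = 0 then 0 else a u
  have hf0 : ∀ v, f' v ≠ 0 := by
    intro v
    simp only [f']
    split_ifs with h
    · exact one_ne_zero
    · exact h
  have hf' : ∀ v, (f' v).totalDegree ≤ d' ∧ (f' v).vars ⊆ Finset.range n := by
    intro v
    simp only [f']
    split_ifs with h
    · simp
    · exact hf v
  have ha' : ∀ u, (a' u).totalDegree ≤ d ∧ (a' u).vars ⊆ Finset.range n := by
    intro u
    simp only [a']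
    split_ifs with h
    · simp
    · exact ha u
  have hterm : ∀ u, a u * ∏ v ∈ (V u)ᶜ, f v = a' u * ∏ v ∈ (V u)ᶜ, f' v := by
    intro u
    simp only [a']
    split_ifs with h
    · obtain ⟨v, hv, h0⟩ := h
      rw [Finset.prod_eq_zero hv h0, mul_zero, zero_mul]
    · congr 1
      refine Finset.prod_congr rfl fun v hv => ?_
      simp only [f']
      rw [if_neg]
      exact fun h0 => h ⟨v, hv, h0⟩
  refine ⟨N, M, f', a', fun u => ∏ v ∈ V u, f' v, ?_, ?_, ?_⟩
  · intro v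
    exact ⟨(hf' v).1.trans hd, (hf' v).2⟩
  · intro u
    refine ⟨(ha' u).1, (ha' u).2, ?_, vars_prod_range _ _ fun v _ => (hf' v).2,
      Finset.prod_ne_zero_iff.mpr fun v _ => hf0 v⟩
    refine (totalDegree_finsetProd _ _).trans ?_
    refine (Finset.sum_le_sum fun v _ => (hf' v).1).trans ?_
    rw [Finset.sum_const, smul_eq_mul]
    exact (Nat.mul_le_mul_right d' (hV u)).trans hr
  · unfold numer
    rw [Finset.sum_mul, Finset.mul_sum]
    refine Finset.sum_congr rfl fun u _ => ?_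
    rw [hterm u]
    have h1 : ∏ v, f' v = (∏ v ∈ V u, f' v) * ∏ v ∈ (V u)ᶜ, f' v :=
      (Finset.prod_mul_prod_compl _ _).symm
    have h2 : ∏ t, ∏ v ∈ V t, f' v =
        (∏ v ∈ V u, f' v) * ∏ t' ∈ Finset.univ.erase u, ∏ v ∈ V t', f' v :=
      (Finset.mul_prod_erase _ _ (Finset.mem_univ u)).symm
    rw [h1, h2]
    ring

/-- A product is a cluster. -/
theorem isCluster_prod {E : Type} [Field E] (d n N : ℕ) (f : Fin N → MvPolynomial ℕ E)
    (hf : ∀ v, (f v).totalDegree ≤ d ∧ (f v).vars ⊆ Finset.range n) :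
    IsCluster E d n (∏ v, f v) := by
  refine ⟨N, 1, f, fun _ => 1, fun _ => 1, hf, ?_, ?_⟩
  · intro t
    simp
  · simp [numer]

/-- Sums of `k` products. -/
theorem isClu_sum {E : Type} [Field E] (k d n : ℕ) (c : Fin k → E) (N : Fin k → ℕ)
    (f : ∀ i : Fin k, Fin (N i) → MvPolynomial ℕ E)
    (hf : ∀ i v, (f i v).totalDegree ≤ d ∧ (f i v).vars ⊆ Finset.range n) :
    IsClu E k d n (∑ i, C (c i) * ∏ v, f i v) := by
  refine ⟨k, fun i => ∏ v, f i v, ∑ i, C (c i) * X i, fun i => isCluster_prod d n (N i) (f i) (hf i),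
    fun s _ => ?_, ?_⟩
  · exact (Finset.card_le_univ s).trans (by simp)
  · rw [map_sum]
    refine Finset.sum_congr rfl fun i _ => ?_
    rw [map_mul, aeval_X, aeval_C]
    rfl

/-- Sums of `k` clusters of products. -/
theorem isClu_near {E : Type} [Field E] (k d d' r n : ℕ) (hd : d' ≤ d) (hr : r * d' ≤ d)
    (N M : Fin k → ℕ)
    (f : ∀ i : Fin k, Fin (N i) → MvPolynomial ℕ E)
    (V : ∀ i : Fin k, Fin (M i) → Finset (Fin (N i)))
    (a : ∀ i : Fin k, Fin (M i) → MvPolynomial ℕ E)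
    (hf : ∀ i v, (f i v).totalDegree ≤ d' ∧ (f i v).vars ⊆ Finset.range n)
    (hV : ∀ i u, (V i u).card ≤ r)
    (ha : ∀ i u, (a i u).totalDegree ≤ d ∧ (a i u).vars ⊆ Finset.range n) :
    IsClu E k d n (∑ i, ∑ u, a i u * ∏ v ∈ (V i u)ᶜ, f i v) := by
  refine ⟨k, fun i => ∑ u, a i u * ∏ v ∈ (V i u)ᶜ, f i v, ∑ i, X i,
    fun i => isCluster_near d d' r n (N i) (M i) hd hr (f i) (V i) (a i) (hf i) (hV i) (ha i),
    fun s _ => ?_, ?_⟩
  · exact (Finset.card_le_univ s).trans (by simp)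
  · rw [map_sum]
    refine Finset.sum_congr rfl fun i _ => ?_
    rw [aeval_X]

end Pool.Agent.RS.H99
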