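import Mathlib

set_option autoImplicit false

/-! Countable fields of characteristic zero embed in one field. -/

namespace Pool.Agent.RS.H99

universe v

/-- A field of characteristic zero which contains all countable ones. -/
abbrev Om : Type := AlgebraicClosure (FractionRing (MvPolynomial ℕ ℚ))

theorem emb (K : Type v) [Field K] [CharZero K] (hK : Countable K) : Nonempty (K →+* Om) := by
  classical
  letI : Algebra ℚ K := DivisionRing.toRatAlgebra
  obtain ⟨s, hs⟩ := exists_isTranscendenceBasis ℚ K
  haveI : Countable s := inferInstance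
  obtain ⟨e, he⟩ := exists_injective_nat s
  let R := Algebra.adjoin ℚ (Set.range ((↑) : s → K))
  let g0 : R →+* MvPolynomial ℕ ℚ :=
    ((MvPolynomial.rename e : MvPolynomial s ℚ →ₐ[ℚ] MvPolynomial ℕ ℚ) : MvPolynomial s ℚ →+* MvPolynomial ℕ ℚ).comp
      (hs.1.aevalEquiv.symm : R →+* MvPolynomial s ℚ)
  have hg0 : Function.Injective g0 := by
    intro a b h
    exact hs.1.aevalEquiv.symm.injective (MvPolynomial.rename_injective e he h)
  let g : R →+* Om := (algebraMap (MvPolynomial ℕ ℚ) Om).comp g0
  have hg : Function.Injective g := by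
    intro a b h
    apply hg0
    have h1 : Function.Injective (algebraMap (MvPolynomial ℕ ℚ) Om) := by
      rw [IsScalarTower.algebraMap_eq (MvPolynomial ℕ ℚ) (FractionRing (MvPolynomial ℕ ℚ)) Om]
      exact (algebraMap (FractionRing (MvPolynomial ℕ ℚ)) Om).injective.comp
        (IsFractionRing.injective _ _)
    exact h1 h
  letI : Algebra R Om := g.toAlgebra
  haveI : Algebra.IsAlgebraic R K := hs.isAlgebraic
  haveI : FaithfulSMul R Om := (faithfulSMul_iff_algebraMap_injective R Om).mpr hg
  exact ⟨(IsAlgClosed.lift : K →ₐ[R] Om).toRingHom⟩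

end Pool.Agent.RS.H99
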