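import Pool.Agent.Helper99_RS.Emb
import Pool.Agent.Helper99_RS.All

set_option autoImplicit false

/-! The number of blocks of the generator does not depend on the field. -/

namespace Pool.Agent.RS.H99

open MvPolynomial

/-- Base change and composition. -/
theorem map_aeval_eq {A B : Type} [Field A] [Field B] (σ : A →+* B) {I : Type} (T : I → MvPolynomial ℕ A)
    (C : MvPolynomial I A) : map σ (aeval T C) = aeval (fun i => map σ (T i)) (map σ C) := by
  induction C using MvPolynomial.induction_on with
  | C a => simp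
  | add p q hp hq => simp only [map_add, hp, hq]
  | mul_X p i hp => simp only [map_mul, hp, aeval_X, map_X]

/-- Algebraic independence goes down to a smaller field. -/
theorem ai_down {A B : Type} [Field A] [Field B] (σ : A →+* B) {I : Type} (T : I → MvPolynomial ℕ A)
    (h : AlgebraicIndependent B (fun i => map σ (T i))) : AlgebraicIndependent A T := by
  rw [algebraicIndependent_iff] at h ⊢
  intro p hp
  have h1 := h (map σ p) (by rw [← map_aeval_eq, hp, map_zero])
  exact map_injective σ σ.injective (by rw [h1, map_zero])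

/-- Algebraic independence goes up to a larger field. -/
theorem ai_up {A B : Type} [Field A] [Field B] [CharZero A] [CharZero B] (σ : A →+* B) {r : ℕ}
    (T : Fin r → MvPolynomial ℕ A) (h : AlgebraicIndependent A T) :
    AlgebraicIndependent B (fun i => map σ (T i)) := by
  obtain ⟨j, hj⟩ := H82.exists_jacobian_minor T h
  apply H82.algebraicIndependent_of_minor (fun i => map σ (T i)) j
  have h1 : (Matrix.of fun l i => pderiv (j i) (map σ (T l))) =
      (map σ : MvPolynomial ℕ A →+* MvPolynomial ℕ B).mapMatrix
        (Matrix.of fun l i => pderiv (j i) (T l)) := by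
    ext1 l i
    simp [pderiv_map]
  rw [h1, ← RingHom.map_det]
  intro h0
  exact hj (map_injective σ σ.injective (by rw [h0, map_zero]))

theorem totalDegree_map_le' {A B : Type} [Field A] [Field B] (σ : A →+* B) (p : MvPolynomial ℕ A) :
    (map σ p).totalDegree ≤ p.totalDegree := by
  unfold totalDegree
  exact Finset.sup_mono (support_map_subset σ p)

theorem totalDegree_map_eq' {A B : Type} [Field A] [Field B] (σ : A →+* B) (p : MvPolynomial ℕ A) :
    (map σ p).totalDegree = p.totalDegree := by
  unfold totalDegree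
  rw [support_map_of_injective p σ.injective]

/-- Polynomials with coefficients in a subfield. -/
theorem lift_sub {E I : Type} [Field E] (K : Subfield E) (p : MvPolynomial I E)
    (h : ∀ c ∈ p.coeffs, c ∈ K) : ∃ p0 : MvPolynomial I K, map K.subtype p0 = p := by
  have h1 : p ∈ Set.range (MvPolynomial.map K.subtype) := by
    rw [mem_range_map_iff_coeffs_subset]
    intro c hc
    exact ⟨⟨c, h c hc⟩, rfl⟩
  exact h1

/-- The value at the universal point. -/
theorem eval_uni {E : Type} [Field E] (n t : ℕ) (y : Fin t ⊕ Fin t → E) (F : MvPolynomial ℕ E) :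
    eval y (aeval (Pool.Agent.UO.point n (fun j => X (Sum.inl j)) (fun j => X (Sum.inr j)) :
      ℕ → MvPolynomial (Fin t ⊕ Fin t) E) F) =
    eval (Pool.Agent.UO.point n (fun j => y (Sum.inl j)) (fun j => y (Sum.inr j))) F := by
  induction F using MvPolynomial.induction_on with
  | C a => simp
  | add p q hp hq => rw [map_add, map_add, map_add, hp, hq]
  | mul_X p i hp =>
    rw [map_mul, map_mul, map_mul, hp, aeval_X, eval_X]
    congr 1
    show eval y (Pool.Agent.UO.point n _ _ i) = _
    rw [H44.map_pt (eval y)]
    simp only [eval_X]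

theorem map_uni {A L : Type} [Field A] [Field L] (ρ : A →+* L) (n t : ℕ) (F : MvPolynomial ℕ A) :
    map ρ (aeval (Pool.Agent.UO.point n (fun j => X (Sum.inl j)) (fun j => X (Sum.inr j)) :
      ℕ → MvPolynomial (Fin t ⊕ Fin t) A) F) =
    aeval (Pool.Agent.UO.point n (fun j => X (Sum.inl j)) (fun j => X (Sum.inr j))) (map ρ F) := by
  induction F using MvPolynomial.induction_on with
  | C a => simp
  | add p q hp hq => simp only [map_add, hp, hq]
  | mul_X p i hp =>
    simp only [map_mul, hp, aeval_X, map_X]
    congr 1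
    rw [H44.map_pt (map ρ)]
    simp only [map_X]

/-- A point of a larger field gives a point of any infinite field over the field of the
coefficients. -/
theorem point_transfer {A B E : Type} [Field A] [Field B] [Field E] [Infinite E] (σ : A →+* B)
    (τ : A →+* E) (n t : ℕ) (F : MvPolynomial ℕ A)
    (h : ∃ w z : Fin t → B, eval (Pool.Agent.UO.point n w z) (map σ F) ≠ 0) :
    ∃ w z : Fin t → E, eval (Pool.Agent.UO.point n w z) (map τ F) ≠ 0 := by
  obtain ⟨w, z, hwz⟩ := h
  obtain ⟨P, hP⟩ : ∃ P : MvPolynomial (Fin t ⊕ Fin t) A,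
      P = aeval (Pool.Agent.UO.point n (fun j => X (Sum.inl j)) (fun j => X (Sum.inr j))) F :=
    ⟨_, rfl⟩
  have hP0 : P ≠ 0 := by
    intro h0
    apply hwz
    have h1 := eval_uni n t (Sum.elim w z) (map σ F)
    rw [← map_uni σ, ← hP, h0, map_zero, map_zero] at h1
    exact h1.symm
  have h2 : ∃ y : Fin t ⊕ Fin t → E, eval y (map τ P) ≠ 0 := by
    by_contra hcon
    push Not at hcon
    apply hP0
    apply map_injective τ τ.injective
    rw [map_zero]
    apply MvPolynomial.funext
    intro y
    rw [hcon y, map_zero]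
  obtain ⟨y, hy⟩ := h2
  rw [hP, map_uni τ, eval_uni] at hy
  exact ⟨_, _, hy⟩

/-- HIT, with a number `t0` independent of the field. -/
theorem hitU (k d : ℕ) : ∃ t0 : ℕ, ∀ (E : Type) [Field E] [CharZero E] (n t : ℕ), t0 ≤ t →
    ∀ F : MvPolynomial ℕ E, IsComp E k d n F → F ≠ 0 →
      ∃ w z : Fin t → E, eval (Pool.Agent.UO.point n w z) F ≠ 0 := by
  classical
  haveI : CharZero Om := by
    haveI : CharZero (FractionRing (MvPolynomial ℕ ℚ)) := inferInstance
    infer_instance
  obtain ⟨t0, ht0⟩ := hit Om k d
  refine ⟨t0, ?_⟩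
  intro E _ _ n t ht F hF hF0
  obtain ⟨m, T, C, hT, hk, rfl⟩ := hF
  choose N f hf hTf using hT
  -- the field of the coefficients
  let A : Finset E := C.coeffs ∪ Finset.univ.biUnion fun i => Finset.univ.biUnion fun v =>
    (f i v).coeffs
  let K : Subfield E := Subfield.closure (A : Set E)
  haveI hKc : Countable K := by
    rw [← Cardinal.mk_le_aleph0_iff]
    refine (Subfield.cardinalMk_closure_le_max _).trans (max_le ?_ le_rfl)
    exact Cardinal.mk_le_aleph0_iff.mpr (Finset.countable_toSet A)
  obtain ⟨C0, hC0⟩ := lift_sub K C (fun c hc => Subfield.subset_closure (by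
    rw [Finset.mem_coe]
    exact Finset.mem_union_left _ hc))
  have hfl : ∀ i v, ∃ p0 : MvPolynomial ℕ K, map K.subtype p0 = f i v := by
    intro i v
    refine lift_sub K (f i v) (fun c hc => Subfield.subset_closure ?_)
    rw [Finset.mem_coe]
    exact Finset.mem_union_right _ (Finset.mem_biUnion.mpr ⟨i, Finset.mem_univ i,
      Finset.mem_biUnion.mpr ⟨v, Finset.mem_univ v, hc⟩⟩)
  choose f0 hf0 using hfl
  obtain ⟨σ⟩ := emb K hKc
  let T0 : Fin m → MvPolynomial ℕ K := fun i => ∏ v, f0 i v
  have hT0 : ∀ i, map K.subtype (T0 i) = T i := by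
    intro i
    rw [hTf i, map_prod]
    exact Finset.prod_congr rfl fun v _ => hf0 i v
  have hFF : map K.subtype (aeval T0 C0) = aeval T C := by
    rw [map_aeval_eq, hC0]
    congr 2
    funext i
    exact hT0 i
  have h0 : aeval T0 C0 ≠ 0 := by
    intro h0
    rw [h0, map_zero] at hFF
    exact hF0 hFF.symm
  rw [← hFF]
  refine point_transfer σ K.subtype n t (aeval T0 C0) ?_
  refine ht0 n t ht _ ⟨m, fun i => map σ (T0 i), map σ C0, ?_, ?_, map_aeval_eq σ T0 C0⟩ ?_
  · intro i
    refine ⟨N i, fun v => map σ (f0 i v), fun v => ⟨?_, ?_⟩, ?_⟩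
    · refine (totalDegree_map_le' σ _).trans ?_
      rw [← totalDegree_map_eq' K.subtype, hf0]
      exact (hf i v).1
    · refine (vars_map _ _).trans ?_
      rw [← vars_map_of_injective _ K.subtype_injective, hf0]
      exact (hf i v).2
    · simp only [T0, map_prod]
  · intro s hs
    apply hk s
    have h1 := ai_down σ (fun i : s => T0 i) hs
    let e : Fin s.card ≃ s := s.equivFin.symm
    have h2 := ai_up K.subtype (fun a => T0 (e a)) (h1.comp e e.injective)
    have h3 : AlgebraicIndependent E (fun a => T (e a)) := by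
      have h4 : (fun a => map K.subtype (T0 (e a))) = fun a => T (e a) := by
        funext a
        exact hT0 _
      rw [← h4]
      exact h2
    have h5 := h3.comp e.symm e.symm.injective
    have h6 : (fun a => T (e a)) ∘ e.symm = fun i : s => T i := by
      funext i
      simp
    rw [h6] at h5
    exact h5
  · intro h1
    exact h0 (map_injective σ σ.injective (by rw [h1, map_zero]))

/-- PRD, with a number `t0` independent of the field. -/
theorem prdU (k d : ℕ) : ∃ t0 : ℕ, ∀ (E : Type) [Field E] [CharZero E] (n t : ℕ), t0 ≤ t →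
    ∀ S : List (MvPolynomial ℕ E), (∀ F ∈ S, IsComp E k d n F) → S.prod ≠ 0 →
      ∃ w z : Fin t → E, eval (Pool.Agent.UO.point n w z) S.prod ≠ 0 := by
  obtain ⟨t0, h0⟩ := hitU k d
  refine ⟨t0, ?_⟩
  intro E _ _ n t ht S hS hne
  let P : ℕ → MvPolynomial (Fin t ⊕ Fin t) E :=
    Pool.Agent.UO.point n (fun j => X (Sum.inl j)) (fun j => X (Sum.inr j))
  have hprod : ∀ S : List (MvPolynomial ℕ E), (∀ F ∈ S, IsComp E k d n F) → S.prod ≠ 0 →
      aeval P S.prod ≠ 0 := by
    intro S
    induction S with
    | nil =>
      intro _ _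
      rw [List.prod_nil, map_one]
      exact one_ne_zero
    | cons F S ih =>
      intro hc hn
      rw [List.prod_cons] at hn
      rw [List.prod_cons, map_mul]
      apply mul_ne_zero
      · obtain ⟨w, z, hwz⟩ := h0 E n t ht F (hc F (List.mem_cons_self)) (left_ne_zero_of_mul hn)
        intro hz
        apply hwz
        have h1 := eval_uni n t (Sum.elim w z) F
        rw [show aeval (Pool.Agent.UO.point n (fun j => X (Sum.inl j)) (fun j => X (Sum.inr j))) F
          = 0 from hz, map_zero] at h1
        exact h1.symm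
      · exact ih (fun G hG => hc G (List.mem_cons_of_mem _ hG)) (right_ne_zero_of_mul hn)
  have h1 := hprod S hS hne
  have h2 : ∃ y : Fin t ⊕ Fin t → E, eval y (aeval P S.prod) ≠ 0 := by
    by_contra hcon
    push Not at hcon
    apply h1
    apply MvPolynomial.funext
    intro y
    rw [hcon y, map_zero]
  obtain ⟨y, hy⟩ := h2
  rw [eval_uni] at hy
  exact ⟨_, _, hy⟩

end Pool.Agent.RS.H99
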