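import Pool.Agent.Helper99_RS.Uni
import Pool.Agent.Helper99_RS.CluDefs

set_option autoImplicit false

/-! The number of blocks of the generator for clusters does not depend on the field. -/

namespace Pool.Agent.RS.H99

open MvPolynomial

/-- A cluster over a field, from a cluster over a larger field. -/
theorem vars_map_le {A B : Type} [Field A] [Field B] (σ : A →+* B) (p : MvPolynomial ℕ A) :
    (map σ p).vars ⊆ p.vars := vars_map _ _

theorem isCluster_map {A B : Type} [Field A] [Field B] (σ : A →+* B) {d n : ℕ}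
    {T : MvPolynomial ℕ A} (h : IsCluster A d n T) : IsCluster B d n (map σ T) := by
  obtain ⟨N, M, f, a, b, hf, hab, hT⟩ := h
  refine ⟨N, M, fun v => map σ (f v), fun t => map σ (a t), fun t => map σ (b t), ?_, ?_, ?_⟩
  · exact fun v => ⟨(totalDegree_map_le' σ _).trans (hf v).1, (vars_map _ _).trans (hf v).2⟩
  · intro t
    obtain ⟨h1, h2, h3, h4, h5⟩ := hab t
    refine ⟨(totalDegree_map_le' σ _).trans h1, (vars_map _ _).trans h2,
      (totalDegree_map_le' σ _).trans h3, (vars_map _ _).trans h4, fun h => h5 ?_⟩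
    exact map_injective σ σ.injective (by rw [map_zero]; exact h)
  · have h1 := congrArg (map σ) hT
    simpa only [numer, map_mul, map_prod, map_sum] using h1

/-- HIT for clusters, with a number `t0` independent of the field. -/
theorem hitCU (k d t0 : ℕ)
    (ht0 : ∀ n t : ℕ, t0 ≤ t → ∀ F : MvPolynomial ℕ Om, IsClu Om k d n F → F ≠ 0 →
      ∃ w z : Fin t → Om, eval (Pool.Agent.UO.point n w z) F ≠ 0) :
    ∀ (E : Type) [Field E] [CharZero E] (n t : ℕ), t0 ≤ t →
    ∀ F : MvPolynomial ℕ E, IsClu E k d n F → F ≠ 0 →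
      ∃ w z : Fin t → E, eval (Pool.Agent.UO.point n w z) F ≠ 0 := by
  classical
  have : CharZero Om := by
    have : CharZero (FractionRing (MvPolynomial ℕ ℚ)) := inferInstance
    infer_instance
  intro E _ _ n t ht F hF hF0
  obtain ⟨m, T, C, hT, hk, rfl⟩ := hF
  choose N M f a b hf hab hTf using hT
  -- the field of the coefficients
  let A : Finset E := C.coeffs ∪ (Finset.univ.biUnion fun i => (T i).coeffs) ∪
    (Finset.univ.biUnion fun i => Finset.univ.biUnion fun v => (f i v).coeffs) ∪
    Finset.univ.biUnion fun i => Finset.univ.biUnion fun v => (a i v).coeffs ∪ (b i v).coeffs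
  let K : Subfield E := Subfield.closure (A : Set E)
  have hKc : Countable K := by
    rw [← Cardinal.mk_le_aleph0_iff]
    refine (Subfield.cardinalMk_closure_le_max _).trans (max_le ?_ le_rfl)
    exact Cardinal.mk_le_aleph0_iff.mpr (Finset.countable_toSet A)
  have hA : ∀ c ∈ A, c ∈ K := fun c hc => Subfield.subset_closure (Finset.mem_coe.mpr hc)
  obtain ⟨C0, hC0⟩ := lift_sub K C (fun c hc => hA c (by
    refine Finset.mem_union_left _ (Finset.mem_union_left _ (Finset.mem_union_left _ hc))))
  have hTl : ∀ i, ∃ p0 : MvPolynomial ℕ K, map K.subtype p0 = T i := by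
    intro i
    refine lift_sub K (T i) (fun c hc => hA c ?_)
    exact Finset.mem_union_left _ (Finset.mem_union_left _ (Finset.mem_union_right _
      (Finset.mem_biUnion.mpr ⟨i, Finset.mem_univ i, hc⟩)))
  choose T0 hT0 using hTl
  have hfl : ∀ i v, ∃ p0 : MvPolynomial ℕ K, map K.subtype p0 = f i v := by
    intro i v
    refine lift_sub K (f i v) (fun c hc => hA c ?_)
    exact Finset.mem_union_left _ (Finset.mem_union_right _ (Finset.mem_biUnion.mpr
      ⟨i, Finset.mem_univ i, Finset.mem_biUnion.mpr ⟨v, Finset.mem_univ v, hc⟩⟩))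
  choose f0 hf0 using hfl
  have hal : ∀ i v, ∃ p0 : MvPolynomial ℕ K, map K.subtype p0 = a i v := by
    intro i v
    refine lift_sub K (a i v) (fun c hc => hA c ?_)
    exact Finset.mem_union_right _ (Finset.mem_biUnion.mpr
      ⟨i, Finset.mem_univ i, Finset.mem_biUnion.mpr ⟨v, Finset.mem_univ v,
        Finset.mem_union_left _ hc⟩⟩)
  choose a0 ha0 using hal
  have hbl : ∀ i v, ∃ p0 : MvPolynomial ℕ K, map K.subtype p0 = b i v := by
    intro i v
    refine lift_sub K (b i v) (fun c hc => hA c ?_)
    exact Finset.mem_union_right _ (Finset.mem_biUnion.mpr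
      ⟨i, Finset.mem_univ i, Finset.mem_biUnion.mpr ⟨v, Finset.mem_univ v,
        Finset.mem_union_right _ hc⟩⟩)
  choose b0 hb0 using hbl
  obtain ⟨σ⟩ := emb K hKc
  have hclu : ∀ i, IsCluster K d n (T0 i) := by
    intro i
    have hd : ∀ p : MvPolynomial ℕ K, p.totalDegree = (map K.subtype p).totalDegree :=
      fun p => (totalDegree_map_eq' K.subtype p).symm
    have hv : ∀ p : MvPolynomial ℕ K, p.vars = (map K.subtype p).vars :=
      fun p => (vars_map_of_injective _ K.subtype_injective).symm
    refine ⟨N i, M i, f0 i, a0 i, b0 i, ?_, ?_, ?_⟩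
    · intro v
      rw [hd, hv, hf0]
      exact hf i v
    · intro v
      rw [hd (a0 i v), hv (a0 i v), hd (b0 i v), hv (b0 i v), ha0, hb0]
      obtain ⟨h1, h2, h3, h4, h5⟩ := hab i v
      refine ⟨h1, h2, h3, h4, fun h => h5 ?_⟩
      rw [← hb0, h, map_zero]
    · apply map_injective K.subtype K.subtype_injective
      simp only [numer, map_mul, map_prod, map_sum, hT0, hf0, ha0, hb0]
      exact hTf i
  have hFF : map K.subtype (aeval T0 C0) = aeval T C := by
    rw [map_aeval_eq, hC0]
    congr 2
    funext i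
    exact hT0 i
  have h0 : aeval T0 C0 ≠ 0 := by
    intro h0
    rw [h0, map_zero] at hFF
    exact hF0 hFF.symm
  rw [← hFF]
  refine point_transfer σ K.subtype n t (aeval T0 C0) ?_
  refine ht0 n t ht _ ⟨m, fun i => map σ (T0 i), map σ C0, fun i => isCluster_map σ (hclu i), ?_,
    map_aeval_eq σ T0 C0⟩ ?_
  · intro s hs
    apply hk s
    have h1 := ai_down σ (fun i : s => T0 i) hs
    let e : Fin s.card ≃ s := s.equivFin.symm
    have h2 := ai_up K.subtype (fun a => T0 (e a)) (h1.comp e e.injective)
    have h3 : AlgebraicIndependent E (fun a => T (e a)) := by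
      have h4 : (fun a => map K.subtype (T0 (e a))) = fun a => T (e a) := by
        funext a
        exact hT0 _
      rw [← h4]
      exact h2
    have h5 := h3.comp e.symm e.symm.injective
    have h6 : (fun a => T (e a)) ∘ e.symm = fun i : s => T i := by
      funext i
      simp
    rw [h6] at h5
    exact h5
  · intro h1
    exact h0 (map_injective σ σ.injective (by rw [h1, map_zero]))

/-- Products. -/
theorem prdCU (k d t0 : ℕ)
    (h0 : ∀ (E : Type) [Field E] [CharZero E] (n t : ℕ), t0 ≤ t →
      ∀ F : MvPolynomial ℕ E, IsClu E k d n F → F ≠ 0 →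
      ∃ w z : Fin t → E, eval (Pool.Agent.UO.point n w z) F ≠ 0) :
    ∀ (E : Type) [Field E] [CharZero E] (n t : ℕ), t0 ≤ t →
    ∀ S : List (MvPolynomial ℕ E), (∀ F ∈ S, IsClu E k d n F) → S.prod ≠ 0 →
      ∃ w z : Fin t → E, eval (Pool.Agent.UO.point n w z) S.prod ≠ 0 := by
  intro E _ _ n t ht S hS hne
  let P : ℕ → MvPolynomial (Fin t ⊕ Fin t) E :=
    Pool.Agent.UO.point n (fun j => X (Sum.inl j)) (fun j => X (Sum.inr j))
  have hprod : ∀ S : List (MvPolynomial ℕ E), (∀ F ∈ S, IsClu E k d n F) → S.prod ≠ 0 →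
      aeval P S.prod ≠ 0 := by
    intro S
    induction S with
    | nil =>
      intro _ _
      rw [List.prod_nil, map_one]
      exact one_ne_zero
    | cons F S ih =>
      intro hc hn
      rw [List.prod_cons] at hn
      rw [List.prod_cons, map_mul]
      apply mul_ne_zero
      · obtain ⟨w, z, hwz⟩ := h0 E n t ht F (hc F (List.mem_cons_self)) (left_ne_zero_of_mul hn)
        intro hz
        apply hwz
        have h1 := eval_uni n t (Sum.elim w z) F
        rw [show aeval (Pool.Agent.UO.point n (fun j => X (Sum.inl j)) (fun j => X (Sum.inr j))) F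
          = 0 from hz, map_zero] at h1
        exact h1.symm
      · exact ih (fun G hG => hc G (List.mem_cons_of_mem _ hG)) (right_ne_zero_of_mul hn)
  have h1 := hprod S hS hne
  have h2 : ∃ y : Fin t ⊕ Fin t → E, eval y (aeval P S.prod) ≠ 0 := by
    by_contra hcon
    push Not at hcon
    apply h1
    apply MvPolynomial.funext
    intro y
    rw [hcon y, map_zero]
  obtain ⟨y, hy⟩ := h2
  rw [eval_uni] at hy
  exact ⟨_, _, hy⟩

end Pool.Agent.RS.H99
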